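import Pool.Agent.K1H62.MC.Basic

set_option autoImplicit false

/-! The pieces of the proof (statements only). -/

namespace Pool.Agent.K1H62.MC

open MeasureTheory Filter Topology
open scoped ENNReal ContDiff

noncomputable section

/-- geometry of the spheroid -/
def S_GEO : Prop :=
  Convex ℝ {x : E | s x < 4} ∧ (∀ x, 2 * ‖x‖ ≤ s x) ∧ (∀ x, s x ≤ 2 * ‖x‖ + 2) ∧
  LipschitzWith 2 s ∧ frontier {x : E | s x < 4} = {x | s x = 4} ∧ frontier MM = {x | s x = 4} ∧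
  interior MM = {x | 4 < s x} ∧ ContDiffOn ℝ ∞ s {x | 2 < s x} ∧ (∀ x, 2 < s x → fderiv ℝ s x ≠ 0) ∧
  volume {x : E | s x = 4} = 0

/-- the potential -/
def S_POT : Prop :=
  ContDiffOn ℝ ∞ u {x | 2 < s x} ∧ (∀ x, 2 < s x → ∑ i, pd i (pd i u) x = 0) ∧
  (∀ x, 2 < s x → 0 < ∑ i, pd i u x ^ 2) ∧ (∀ x, s x = 4 → u x = 0) ∧ (∀ x, 4 < s x → 0 < u x) ∧
  (∀ x, 3 < s x → |u x| < 1)

/-- decay of the potential -/
def S_DEC : Prop := (∃ C : ℝ, 0 < C ∧ (∀ x ∈ MM, |1 - u x| ≤ C / (1 + ‖x‖)) ∧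
  (∀ x ∈ MM, ∀ i, |pd i u x| ≤ C / (1 + ‖x‖) ^ 2) ∧
  (∀ x ∈ MM, ∀ i j, |pd j (pd i u) x| ≤ C / (1 + ‖x‖) ^ 3)) ∧ ∃ L, LipschitzOnWith L u MM

/-- the point `(3, 0, 0)` -/
def x₀ : E := EuclideanSpace.single 0 3

/-- the first variation is not zero at one point -/
def S_DNE : Prop := pd 1 (pd 1 Q1) x₀ + pd 0 (pd 0 Q0) x₀ ≠ 0

/-- there is a deformation with positive first variation -/
def S_LPOS : Prop := S_GEO → S_POT → S_DNE → ∃ F, Def F ∧ 0 < Lf F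

/-- the scalar curvature of a diagonal metric -/
def S_SCAL : Prop := ∀ (α : Fin 3 → E → ℝ) (U : Set E), IsOpen U → (∀ i, ContDiffOn ℝ ∞ (α i) U) →
  ∀ x ∈ U, Rsc (fun y => Matrix.diagonal fun i => Real.exp (2 * α i y)) x = Rd α x

/-- outside the support of the deformation -/
def S_OUT : Prop := S_POT → ∀ (F : E → ℝ) (K t : ℝ), 0 < K → K * t ^ 2 < 1 / 2 → ∀ x, 4 ≤ s x → x ∉ tsupport F →
  Rd (al F K t) x = 16 * K * t ^ 2 * (∑ i, pd i u x ^ 2) / ph K t x ^ 5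

/-- the scalar curvature is not negative -/
def S_RPOS : Prop := S_POT → S_OUT → ∀ F, Def F → ∃ K : ℝ, 0 < K ∧ ∃ t₀ : ℝ, 0 < t₀ ∧ ∀ t, 0 < t → t < t₀ →
  K * t ^ 2 < 1 / 2 ∧ ∀ x ∈ MM, 0 ≤ Rd (al F K t) x

/-- the scalar curvature is integrable -/
def S_RINT : Prop := S_GEO → S_POT → S_DEC → S_OUT → ∀ F, Def F → ∀ K t : ℝ, 0 < K → 0 < t → K * t ^ 2 < 1 / 2 →
  IntegrableOn (fun x => Rd (al F K t) x * vol (gm F K t) x) MM

/-- decay of the metric -/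
def S_AFD : Prop := S_GEO → S_POT → S_DEC → ∀ F, Def F → ∀ K t : ℝ, 0 < K → 0 < t → K * t ^ 2 < 1 / 2 →
  ∃ c C r : ℝ, 0 < c ∧ 0 < r ∧ (∀ y : E, r ≤ ‖y‖ → c⁻¹ • y ∈ interior MM) ∧
    ∀ y : E, r ≤ ‖y‖ → ∀ i j,
      |resc c (gm F K t) y i j - (1 : Matrix (Fin 3) (Fin 3) ℝ) i j| ≤ C * ‖y‖ ^ (-1 : ℝ) ∧
      ∀ k, |pd k (fun z => resc c (gm F K t) z i j) y| ≤ C * ‖y‖ ^ (-1 - 1 : ℝ) ∧
        ∀ l, |pd l (pd k (fun z => resc c (gm F K t) z i j)) y| ≤ C * ‖y‖ ^ (-1 - 2 : ℝ)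

/-- the metric is Euclidean and the mean curvature unchanged on the boundary -/
def S_BDY : Prop := S_GEO → S_POT → ∀ F, Def F → ∀ K t : ℝ, 0 < K → 0 < t → K * t ^ 2 < 1 / 2 →
  ∀ x, s x = 4 → gm F K t x = 1 ∧ Hm (gm F K t) (fun y => s y - 4) x = Hm eu (fun y => s y - 4) x

/-- smoothness of the exponents -/
def S_SM : Prop := S_POT → ∀ F, Def F → ∀ K t : ℝ, 0 < K → K * t ^ 2 < 1 / 2 →
  ∀ i, ContDiffOn ℝ ∞ (al F K t i) {x | 3 < s x}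

/-- orthogonality for functions with compact support -/
def S_ORTHC : Prop := S_GEO → S_POT → ∀ w : E → ℝ, (∃ C, LipschitzWith C w) → HasCompactSupport w →
  tsupport w ⊆ {x | 4 < s x} → ∫ x in MM, ∑ i, pd i u x * pd i w x = 0

/-- the gradient of the potential is orthogonal to the gradients of functions which vanish on the
boundary and at infinity -/
def S_ORTH : Prop := S_GEO → S_POT → S_DEC → S_ORTHC → ∀ w : E → ℝ, (∃ C, LipschitzWith C w) → (∀ x, s x ≤ 4 → w x = 0) →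
  Tendsto w (cocompact E) (𝓝 0) → (∀ i, IntegrableOn (fun x => pd i w x ^ 2) MM) →
  ∫ x in MM, ∑ i, pd i u x * pd i w x = 0

/-- the Dirichlet integral of the potential -/
def E₀ : ℝ := ∫ x in MM, ∑ i, pd i u x ^ 2

/-- upper bound for the Euclidean capacity -/
def S_UP : Prop := S_GEO → S_POT → S_DEC → IntegrableOn (fun x => ∑ i, pd i u x ^ 2) MM ∧
  cap eu MM ≤ ENNReal.ofReal (1 / (4 * Real.pi)) * ENNReal.ofReal E₀

/-- the coefficients of the Dirichlet integral, to first order -/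
def S_COEF : Prop := S_POT → ∀ F, Def F → ∀ K : ℝ, 0 < K → ∃ C t₀ : ℝ, 0 < C ∧ 0 < t₀ ∧ ∀ t, 0 < t → t < t₀ →
  K * t ^ 2 < 1 / 2 ∧ ∀ x ∈ MM, ∀ i,
    |Real.exp (-2 * al F K t i x) * vol (gm F K t) x - 1 - t * (aa F 0 x + aa F 1 x + aa F 2 x - 2 * aa F i x)| ≤
      C * t ^ 2 ∧ |aa F i x| ≤ C

/-- extension by zero -/
def S_EXT : Prop := S_GEO → ∀ w : E → ℝ, (∃ C, LipschitzOnWith C w MM) → (∀ x, s x = 4 → w x = 0) →
  ∃ C, LipschitzWith C (fun x => if 4 ≤ s x then w x else 0)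

/-- lower bound for the Dirichlet integrals -/
def S_LOW : Prop := S_GEO → S_POT → S_DEC → S_ORTHC → S_ORTH → S_UP → S_COEF → S_EXT → ∀ F, Def F → ∀ K : ℝ, 0 < K →
  ∃ C t₀ : ℝ, 0 < t₀ ∧ ∀ t, 0 < t → t < t₀ → ∀ ψ, Test MM ψ →
    ENNReal.ofReal (E₀ + t * Lf F / 2 - C * t ^ 2) ≤ Dir (gm F K t) MM ψ

/-- the assembly -/
def S_ASM : Prop := S_GEO → S_POT → S_DEC → (∃ F, Def F ∧ 0 < Lf F) → S_SCAL → S_OUT → S_RPOS → S_RINT → S_AFD →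
  S_BDY → S_SM → S_ORTHC → S_ORTH → S_UP → S_COEF → S_EXT → S_LOW → Target

end

end Pool.Agent.K1H62.MC
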