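import Pool.Agent.K1H62.MC.Plan

set_option autoImplicit false

/-! The assembly. -/

namespace Pool.Agent.K1H62.MC

open MeasureTheory Filter Topology
open scoped ENNReal ContDiff

noncomputable section

lemma compl_Om : {x : E | s x < 4}ᶜ = MM := by
  ext x; simp [MM, not_lt]

lemma s_zero : s 0 = 2 := by
  unfold s pp
  simp
  norm_num

lemma smoothConvex (hG : S_GEO) : SmoothConvex {x : E | s x < 4} (fun x => s x - 4) := by
  obtain ⟨h1, h2, h3, h4, h5, h6, h7, h8, h9, h10⟩ := hG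
  refine ⟨⟨0, by show s 0 < 4; rw [s_zero]; norm_num⟩, isOpen_lt s_cont continuous_const, ?_, h1,
    ⟨{x | 2 < s x}, open_s 2, ?_, h8.sub contDiffOn_const⟩, fun x => by simp, ?_, ?_⟩
  · refine (Metric.isBounded_closedBall (x := (0:E)) (r := 2)).subset fun x hx => ?_
    rw [mem_closedBall_zero_iff]
    have hx' : s x < 4 := hx
    have := h2 x
    linarith
  · rw [compl_Om]
    intro x hx
    have hx' : 4 ≤ s x := hx
    show 2 < s x
    linarith
  · rw [h5]
    ext x
    simp only [Set.mem_setOf_eq]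
    constructor <;> intro h <;> linarith
  · intro x hx
    rw [h5] at hx
    have hx' : s x = 4 := hx
    rw [fderiv_sub_const]
    exact h9 x (by rw [hx']; norm_num)

/-- the metric of the example is an admissible extension -/
lemma admissible (hG : S_GEO) (hP : S_POT) (hD : S_DEC) (hSc : S_SCAL) (hO : S_OUT) (hI : S_RINT)
    (hA : S_AFD) (hB : S_BDY) (hS : S_SM) {F : E → ℝ} (hF : Def F) {K t : ℝ} (hK : 0 < K) (ht : 0 < t)
    (hKt : K * t ^ 2 < 1 / 2) (hR : ∀ x ∈ MM, 0 ≤ Rd (al F K t) x) :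
    AdmissibleExt {x : E | s x < 4} (fun x => s x - 4) (gm F K t) := by
  have hsm := hS hP F hF K t hK hKt
  have h34 : MM ⊆ {x : E | 3 < s x} := fun x hx => by
    have hx' : 4 ≤ s x := hx
    show 3 < s x
    linarith
  have hRsc : ∀ x ∈ MM, Rsc (gm F K t) x = Rd (al F K t) x := fun x hx =>
    hSc (al F K t) {x | 3 < s x} (open_s 3) hsm x (h34 hx)
  have hfr : frontier {x : E | s x < 4} = {x | s x = 4} := hG.2.2.2.2.1
  have hmeas : MeasurableSet MM := (isClosed_le continuous_const s_cont).measurableSet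
  refine ⟨⟨{x | 3 < s x}, open_s 3, ?_, ?_⟩, ?_, ?_, ?_, ?_, ?_⟩
  · rw [compl_Om]; exact h34
  · intro i j
    unfold gm
    by_cases h : i = j
    · subst h
      simp only [Matrix.diagonal_apply_eq]
      exact (contDiffOn_const.mul (hsm i)).exp
    · simp only [Matrix.diagonal_apply_ne _ h]
      exact contDiffOn_const
  · intro x _
    exact posDef_diag fun i => al F K t i x
  · rw [compl_Om]
    refine ⟨?_, ?_⟩
    · refine (hI hG hP hD hO F hF K t hK ht hKt).congr_fun (fun x hx => ?_) hmeas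
      simp only
      rw [hRsc x hx]
    · obtain ⟨c, C, r, hc, hr, hy, h⟩ := hA hG hP hD F hF K t hK ht hKt
      refine ⟨c, 1, C, r, hc, by norm_num, le_rfl, hr, hy, fun y hyr i j => ?_⟩
      obtain ⟨a1, a2⟩ := h y hyr i j
      exact ⟨a1, a2⟩
  · rw [compl_Om]
    intro x hx
    rw [hRsc x hx]
    exact hR x hx
  · intro x hx
    rw [hfr] at hx
    exact (hB hG hP F hF K t hK ht hKt x hx).1
  · intro x hx
    rw [hfr] at hx
    exact ((hB hG hP F hF K t hK ht hKt x hx).2).le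

lemma E₀_nonneg : 0 ≤ E₀ := by
  unfold E₀
  exact integral_nonneg fun x => Finset.sum_nonneg fun i _ => sq_nonneg _

theorem asm : S_ASM := by
  intro hG hP hD hL hSc hO hRp hI hA hB hS hOC hOr hU hC hE hLow
  obtain ⟨F, hF, hLF⟩ := hL
  obtain ⟨K, hK, t₁, ht₁, h1⟩ := hRp hP hO F hF
  obtain ⟨C, t₂, ht₂, h2⟩ := hLow hG hP hD hOC hOr hU hC hE F hF K hK
  obtain ⟨t, ht0, htt1, htt2, htC⟩ : ∃ t : ℝ, 0 < t ∧ t < t₁ ∧ t < t₂ ∧ C * t ^ 2 < t * Lf F / 2 := by
    obtain ⟨m, hm, hm1, hm2, hm3⟩ : ∃ m : ℝ, 0 < m ∧ m < t₁ ∧ m < t₂ ∧ (|C| + 1) * m < Lf F / 2 := by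
      have hpos : 0 < Lf F / 2 / (|C| + 1) := by positivity
      refine ⟨min (min t₁ t₂) (Lf F / 2 / (|C| + 1)) / 2, by positivity, ?_, ?_, ?_⟩
      · have := min_le_left (min t₁ t₂) (Lf F / 2 / (|C| + 1))
        have := min_le_left t₁ t₂
        linarith [lt_min (lt_min ht₁ ht₂) hpos]
      · have := min_le_left (min t₁ t₂) (Lf F / 2 / (|C| + 1))
        have := min_le_right t₁ t₂
        linarith [lt_min (lt_min ht₁ ht₂) hpos]
      · have h3 := min_le_right (min t₁ t₂) (Lf F / 2 / (|C| + 1))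
        have h4 : min (min t₁ t₂) (Lf F / 2 / (|C| + 1)) / 2 < Lf F / 2 / (|C| + 1) := by
          have := lt_min (lt_min ht₁ ht₂) hpos
          linarith
        calc (|C| + 1) * (min (min t₁ t₂) (Lf F / 2 / (|C| + 1)) / 2) < (|C| + 1) * (Lf F / 2 / (|C| + 1)) := by
              have : 0 < |C| + 1 := by positivity
              gcongr
          _ = Lf F / 2 := by field_simp
    refine ⟨m, hm, hm1, hm2, ?_⟩
    have h5 : C * m ^ 2 ≤ (|C| + 1) * m * m := by
      have := le_abs_self C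
      nlinarith [sq_nonneg m]
    nlinarith
  obtain ⟨hKt, hR⟩ := h1 t ht0 htt1
  refine ⟨{x : E | s x < 4}, fun x => s x - 4, gm F K t, smoothConvex hG,
    admissible hG hP hD hSc hO hI hA hB hS hF hK ht0 hKt hR, ?_⟩
  rw [compl_Om]
  have hup := (hU hG hP hD).2
  have hE0 := E₀_nonneg
  have hpi : (0:ℝ) < 1 / (4 * Real.pi) := by positivity
  have hlow : ENNReal.ofReal (1 / (4 * Real.pi)) * ENNReal.ofReal (E₀ + t * Lf F / 2 - C * t ^ 2) ≤
      cap (gm F K t) MM := by
    unfold cap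
    refine le_iInf fun ψ => le_iInf fun hψ => ?_
    gcongr
    exact h2 t ht0 htt2 ψ hψ
  refine lt_of_le_of_lt hup (lt_of_lt_of_le ?_ hlow)
  rw [← ENNReal.ofReal_mul hpi.le, ← ENNReal.ofReal_mul hpi.le]
  apply (ENNReal.ofReal_lt_ofReal_iff (by
    apply mul_pos hpi
    nlinarith)).mpr
  apply mul_lt_mul_of_pos_left _ hpi
  linarith

end

end Pool.Agent.K1H62.MC
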