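import Pool.Agent.K1H62.MC.Defs

set_option autoImplicit false

/-! Calculus of partial derivatives, diagonal metrics. -/

namespace Pool.Agent.K1H62.MC

open MeasureTheory Filter Topology
open scoped ENNReal ContDiff

noncomputable section

lemma pd_congr {f g : E → ℝ} {x : E} (i : Fin 3) (h : f =ᶠ[𝓝 x] g) : pd i f x = pd i g x := by
  unfold pd; rw [h.fderiv_eq]

lemma pd_congr_set {f g : E → ℝ} {U : Set E} (hU : IsOpen U) (h : Set.EqOn f g U) {x : E} (hx : x ∈ U)
    (i : Fin 3) : pd i f x = pd i g x :=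
  pd_congr i (h.eventuallyEq_of_mem (hU.mem_nhds hx))

lemma pd_const (i : Fin 3) (c : ℝ) (x : E) : pd i (fun _ => c) x = 0 := by
  unfold pd; simp

lemma pd_add {f g : E → ℝ} {x : E} (i : Fin 3) (hf : DifferentiableAt ℝ f x)
    (hg : DifferentiableAt ℝ g x) : pd i (fun y => f y + g y) x = pd i f x + pd i g x := by
  unfold pd; rw [fderiv_fun_add hf hg]; rfl

lemma pd_sub {f g : E → ℝ} {x : E} (i : Fin 3) (hf : DifferentiableAt ℝ f x)
    (hg : DifferentiableAt ℝ g x) : pd i (fun y => f y - g y) x = pd i f x - pd i g x := by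
  unfold pd; rw [fderiv_fun_sub hf hg]; rfl

lemma pd_neg {f : E → ℝ} {x : E} (i : Fin 3) : pd i (fun y => -f y) x = -pd i f x := by
  unfold pd; rw [fderiv_fun_neg]; rfl

lemma pd_mul {f g : E → ℝ} {x : E} (i : Fin 3) (hf : DifferentiableAt ℝ f x)
    (hg : DifferentiableAt ℝ g x) :
    pd i (fun y => f y * g y) x = f x * pd i g x + pd i f x * g x := by
  unfold pd; rw [fderiv_fun_mul hf hg]
  simp [mul_comm]

lemma pd_const_mul {f : E → ℝ} {x : E} (i : Fin 3) (c : ℝ) (hf : DifferentiableAt ℝ f x) :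
    pd i (fun y => c * f y) x = c * pd i f x := by
  unfold pd; rw [fderiv_const_mul hf]; rfl

lemma pd_sum {ι : Type*} (s : Finset ι) {f : ι → E → ℝ} {x : E} (i : Fin 3)
    (hf : ∀ j ∈ s, DifferentiableAt ℝ (f j) x) :
    pd i (fun y => ∑ j ∈ s, f j y) x = ∑ j ∈ s, pd i (f j) x := by
  unfold pd; rw [fderiv_fun_sum hf]; simp

/-- the chain rule -/
lemma pd_comp {f : E → ℝ} {x : E} (i : Fin 3) {φ : ℝ → ℝ} {φ' : ℝ} (hf : DifferentiableAt ℝ f x)
    (hφ : HasDerivAt φ φ' (f x)) : pd i (fun y => φ (f y)) x = φ' * pd i f x := by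
  unfold pd
  have h := (hφ.comp_hasFDerivAt x hf.hasFDerivAt).fderiv
  have e : (φ ∘ f) = fun y => φ (f y) := rfl
  rw [e] at h
  rw [h]; simp

lemma pd_exp {f : E → ℝ} {x : E} (i : Fin 3) (hf : DifferentiableAt ℝ f x) :
    pd i (fun y => Real.exp (f y)) x = Real.exp (f x) * pd i f x :=
  pd_comp i hf (Real.hasDerivAt_exp (f x))

lemma pd_log {f : E → ℝ} {x : E} (i : Fin 3) (hf : DifferentiableAt ℝ f x) (h0 : f x ≠ 0) :
    pd i (fun y => Real.log (f y)) x = (f x)⁻¹ * pd i f x :=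
  pd_comp i hf (Real.hasDerivAt_log h0)

lemma pd_pow {f : E → ℝ} {x : E} (i : Fin 3) (n : ℕ) (hf : DifferentiableAt ℝ f x) :
    pd i (fun y => f y ^ n) x = (n * f x ^ (n - 1)) * pd i f x :=
  pd_comp (φ := fun y => y ^ n) i hf (hasDerivAt_pow n (f x))

lemma pd_smooth {f : E → ℝ} {U : Set E} (hU : IsOpen U) (hf : ContDiffOn ℝ ∞ f U) (i : Fin 3) :
    ContDiffOn ℝ ∞ (pd i f) U := by
  unfold pd
  have h : ContDiffOn ℝ ∞ (fderiv ℝ f) U := hf.fderiv_of_isOpen hU (by norm_num)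
  exact h.clm_apply contDiffOn_const

lemma pd_smooth' {f : E → ℝ} (hf : ContDiff ℝ ∞ f) (i : Fin 3) : ContDiff ℝ ∞ (pd i f) := by
  rw [← contDiffOn_univ] at hf ⊢
  exact pd_smooth isOpen_univ hf i

lemma diff_of {f : E → ℝ} {U : Set E} (hU : IsOpen U) (hf : ContDiffOn ℝ ∞ f U) {x : E} (hx : x ∈ U) :
    DifferentiableAt ℝ f x :=
  (hf.contDiffAt (hU.mem_nhds hx)).differentiableAt (by norm_num)

lemma pd_tsupport {f : E → ℝ} (i : Fin 3) : tsupport (pd i f) ⊆ tsupport f := by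
  refine closure_minimal (fun x hx => ?_) (isClosed_tsupport f)
  by_contra h
  apply hx
  have h1 : f =ᶠ[𝓝 x] fun _ => 0 := notMem_tsupport_iff_eventuallyEq.mp h
  have h2 := pd_congr i h1
  rw [h2, pd_const]

lemma pd_zero_of_notMem {f : E → ℝ} (i : Fin 3) {x : E} (hx : x ∉ tsupport f) : pd i f x = 0 := by
  by_contra h
  exact hx (pd_tsupport i (subset_tsupport _ h))

/-! ### diagonal metrics -/

lemma det_diag (α : Fin 3 → ℝ) : (Matrix.diagonal fun i => Real.exp (2 * α i)).det =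
    Real.exp (2 * (α 0 + α 1 + α 2)) := by
  rw [Matrix.det_diagonal, Fin.prod_univ_three, ← Real.exp_add, ← Real.exp_add]
  congr 1; ring

lemma inv_diag (α : Fin 3 → ℝ) : (Matrix.diagonal fun i => Real.exp (2 * α i))⁻¹ =
    Matrix.diagonal fun i => Real.exp (-2 * α i) := by
  apply Matrix.inv_eq_left_inv
  rw [Matrix.diagonal_mul_diagonal, ← Matrix.diagonal_one]
  congr 1
  funext i
  rw [← Real.exp_add]
  simp

lemma vol_diag (α : Fin 3 → E → ℝ) (x : E) : vol (fun y => Matrix.diagonal fun i => Real.exp (2 * α i y)) x =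
    Real.exp (α 0 x + α 1 x + α 2 x) := by
  unfold vol
  rw [det_diag fun i => α i x, two_mul, Real.exp_add, Real.sqrt_mul_self (Real.exp_pos _).le]

lemma nsq_diag (α : Fin 3 → E → ℝ) (f : E → ℝ) (x : E) :
    nsq (fun y => Matrix.diagonal fun i => Real.exp (2 * α i y)) f x =
    ∑ i, Real.exp (-2 * α i x) * pd i f x ^ 2 := by
  unfold nsq
  rw [inv_diag fun i => α i x]
  refine Finset.sum_congr rfl fun i _ => ?_
  rw [Finset.sum_eq_single i]
  · rw [Matrix.diagonal_apply_eq]; ring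
  · intro j _ hj
    rw [Matrix.diagonal_apply_ne _ hj.symm]; ring
  · intro h; exact absurd (Finset.mem_univ i) h

lemma posDef_diag (α : Fin 3 → ℝ) : (Matrix.diagonal fun i => Real.exp (2 * α i)).PosDef :=
  Matrix.PosDef.diagonal fun i => Real.exp_pos _

lemma nsq_eu (f : E → ℝ) (x : E) : nsq eu f x = ∑ i, pd i f x ^ 2 := by
  unfold nsq eu
  rw [inv_one]
  refine Finset.sum_congr rfl fun i _ => ?_
  rw [Finset.sum_eq_single i]
  · rw [Matrix.one_apply_eq]; ring
  · intro j _ hj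
    rw [Matrix.one_apply_ne hj.symm]; ring
  · intro h; exact absurd (Finset.mem_univ i) h

lemma vol_eu (x : E) : vol eu x = 1 := by
  unfold vol eu; simp

lemma open_s (a : ℝ) : IsOpen {x : E | a < s x} := by
  have : Continuous s := by unfold s; fun_prop
  exact isOpen_lt continuous_const this

lemma s_cont : Continuous s := by unfold s; fun_prop

end

end Pool.Agent.K1H62.MC
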