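import Mathlib

set_option autoImplicit false

/-! Metrics on domains of three space: scalar curvature, mean curvature, capacity; the potential of
a prolate spheroid. -/

namespace Pool.Agent.K1H62.MC

open MeasureTheory Filter Topology
open scoped ENNReal ContDiff

noncomputable section

/-- Euclidean three space -/
abbrev E := EuclideanSpace ℝ (Fin 3)

/-- symmetric matrix fields, the Riemannian metrics in the coordinates of `E` -/
abbrev Met := E → Matrix (Fin 3) (Fin 3) ℝ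

/-- the `i`-th partial derivative -/
def pd (i : Fin 3) (f : E → ℝ) (x : E) : ℝ := fderiv ℝ f x (EuclideanSpace.single i 1)

/-- the Christoffel symbol `Γ ^ k _ (i j)` -/
def Chr (g : Met) (k i j : Fin 3) (x : E) : ℝ :=
  1 / 2 * ∑ l, (g x)⁻¹ k l *
    (pd i (fun y => g y j l) x + pd j (fun y => g y i l) x - pd l (fun y => g y i j) x)

/-- the scalar curvature -/
def Rsc (g : Met) (x : E) : ℝ :=
  ∑ i, ∑ j, (g x)⁻¹ i j * ∑ k, (pd k (Chr g k i j) x - pd j (Chr g k i k) x +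
    ∑ l, (Chr g k k l x * Chr g l i j x - Chr g k j l x * Chr g l i k x))

/-- the density of the volume -/
def vol (g : Met) (x : E) : ℝ := Real.sqrt (g x).det

/-- the square of the norm of the gradient -/
def nsq (g : Met) (f : E → ℝ) (x : E) : ℝ := ∑ i, ∑ j, (g x)⁻¹ i j * pd i f x * pd j f x

/-- the `i`-th coordinate of the unit normal of the level sets of `f`, in the direction in which `f`
increases -/
def nor (g : Met) (f : E → ℝ) (i : Fin 3) (x : E) : ℝ :=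
  (∑ j, (g x)⁻¹ i j * pd j f x) / Real.sqrt (nsq g f x)

/-- the mean curvature of the level sets of `f`: the divergence of the unit normal -/
def Hm (g : Met) (f : E → ℝ) (x : E) : ℝ := (vol g x)⁻¹ * ∑ i, pd i (fun y => vol g y * nor g f i y) x

/-- the Euclidean metric -/
def eu : Met := fun _ => 1

/-- the functions of the definition of the capacity of the boundary of `M` -/
def Test (M : Set E) (ψ : E → ℝ) : Prop :=
  (∃ C, LipschitzOnWith C ψ M) ∧ (∀ x ∈ frontier M, ψ x = 0) ∧ Tendsto ψ (cocompact E ⊓ 𝓟 M) (𝓝 1)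

/-- the Dirichlet integral -/
def Dir (g : Met) (M : Set E) (ψ : E → ℝ) : ℝ≥0∞ := ∫⁻ x in M, ENNReal.ofReal (nsq g ψ x * vol g x)

/-- the capacity of the boundary of `M` -/
def cap (g : Met) (M : Set E) : ℝ≥0∞ :=
  ⨅ ψ : E → ℝ, ⨅ _ : Test M ψ, ENNReal.ofReal (1 / (4 * Real.pi)) * Dir g M ψ

/-- the metric in the coordinates `y = c x` -/
def resc (c : ℝ) (g : Met) : Met := fun y => (c ^ 2)⁻¹ • g (c⁻¹ • y)

/-- asymptotic flatness of `(M, g)` -/
def IsAF (g : Met) (M : Set E) : Prop :=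
  IntegrableOn (fun x => Rsc g x * vol g x) M ∧
  ∃ c τ C r : ℝ, 0 < c ∧ 1 / 2 < τ ∧ τ ≤ 1 ∧ 0 < r ∧ (∀ y : E, r ≤ ‖y‖ → c⁻¹ • y ∈ interior M) ∧
    ∀ y : E, r ≤ ‖y‖ → ∀ i j, |resc c g y i j - (1 : Matrix (Fin 3) (Fin 3) ℝ) i j| ≤ C * ‖y‖ ^ (-τ) ∧
      ∀ k, |pd k (fun z => resc c g z i j) y| ≤ C * ‖y‖ ^ (-τ - 1) ∧
        ∀ l, |pd l (pd k (fun z => resc c g z i j)) y| ≤ C * ‖y‖ ^ (-τ - 2)

/-- `Ω` is a bounded open convex domain with smooth boundary, with the defining function `f` -/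
structure SmoothConvex (Ω : Set E) (f : E → ℝ) : Prop where
  nonempty : Ω.Nonempty
  isOpen : IsOpen Ω
  bounded : Bornology.IsBounded Ω
  convex : Convex ℝ Ω
  smooth : ∃ U : Set E, IsOpen U ∧ Ωᶜ ⊆ U ∧ ContDiffOn ℝ ∞ f U
  neg : ∀ x, x ∈ Ω ↔ f x < 0
  bdry : frontier Ω = {x | f x = 0}
  grad : ∀ x ∈ frontier Ω, fderiv ℝ f x ≠ 0

/-- the exterior of `Ω` with the metric `g` is an admissible asymptotically flat extension of the
Bartnik data of the boundary of `Ω` -/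
structure AdmissibleExt (Ω : Set E) (f : E → ℝ) (g : Met) : Prop where
  smooth : ∃ U : Set E, IsOpen U ∧ Ωᶜ ⊆ U ∧ ∀ i j, ContDiffOn ℝ ∞ (fun x => g x i j) U
  posDef : ∀ x ∈ Ωᶜ, (g x).PosDef
  af : IsAF g Ωᶜ
  scal : ∀ x ∈ Ωᶜ, 0 ≤ Rsc g x
  induced : ∀ x ∈ frontier Ω, g x = 1
  mean : ∀ x ∈ frontier Ω, Hm g f x ≤ Hm eu f x

/-- the final theorem -/
def Target : Prop := ∃ (Ω : Set E) (f : E → ℝ) (g : Met),
  SmoothConvex Ω f ∧ AdmissibleExt Ω f g ∧ cap eu Ωᶜ < cap g Ωᶜ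

/-! ### The example -/

/-- a focus of the spheroids -/
def pp : E := EuclideanSpace.single 0 1

/-- the sum of the distances from the foci -/
def s (x : E) : ℝ := ‖x - pp‖ + ‖x + pp‖

/-- the potential of the spheroid `s < 4`: zero on the boundary and one at infinity -/
def u (x : E) : ℝ := 1 - Real.log ((s x + 2) / (s x - 2)) / Real.log 3

/-- the exterior -/
def MM : Set E := {x | 4 ≤ s x}

/-- the three diagonal entries of the deformation, from a function `F` -/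
def aa (F : E → ℝ) (i : Fin 3) (x : E) : ℝ :=
  ![-(pd 0 (pd 0 F) x + pd 1 (pd 1 F) x) / 2, (pd 0 (pd 0 F) x + pd 1 (pd 1 F) x) / 2,
    (pd 1 (pd 1 F) x - pd 0 (pd 0 F) x) / 2] i

/-- the conformal factor -/
def ph (K t : ℝ) (x : E) : ℝ := 1 - K * t ^ 2 * u x ^ 2

/-- half the logarithms of the diagonal entries -/
def al (F : E → ℝ) (K t : ℝ) (i : Fin 3) (x : E) : ℝ := t * aa F i x + 2 * Real.log (ph K t x)

/-- the metric `φ ^ 4 diag (exp (2 t a_i))` -/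
def gm (F : E → ℝ) (K t : ℝ) : Met := fun x => Matrix.diagonal fun i => Real.exp (2 * al F K t i x)

/-- the formula for the scalar curvature of `diag (exp (2 α_i))` -/
def Rd (α : Fin 3 → E → ℝ) (x : E) : ℝ := -2 * (
  Real.exp (-2 * α 0 x) * (pd 0 (pd 0 (α 1)) x + pd 0 (pd 0 (α 2)) x + pd 0 (α 1) x ^ 2 +
    pd 0 (α 2) x ^ 2 + pd 0 (α 1) x * pd 0 (α 2) x - pd 0 (α 0) x * (pd 0 (α 1) x + pd 0 (α 2) x)) +
  Real.exp (-2 * α 1 x) * (pd 1 (pd 1 (α 0)) x + pd 1 (pd 1 (α 2)) x + pd 1 (α 0) x ^ 2 +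
    pd 1 (α 2) x ^ 2 + pd 1 (α 0) x * pd 1 (α 2) x - pd 1 (α 1) x * (pd 1 (α 0) x + pd 1 (α 2) x)) +
  Real.exp (-2 * α 2 x) * (pd 2 (pd 2 (α 0)) x + pd 2 (pd 2 (α 1)) x + pd 2 (α 0) x ^ 2 +
    pd 2 (α 1) x ^ 2 + pd 2 (α 0) x * pd 2 (α 1) x - pd 2 (α 2) x * (pd 2 (α 0) x + pd 2 (α 1) x)))

/-- two quadratic expressions in the gradient of the potential -/
def Q1 (x : E) : ℝ := 3 * pd 0 u x ^ 2 - pd 1 u x ^ 2 - pd 2 u x ^ 2

def Q0 (x : E) : ℝ := pd 0 u x ^ 2 - 3 * pd 1 u x ^ 2 + pd 2 u x ^ 2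

/-- twice the first variation of the Dirichlet integral -/
def Lf (F : E → ℝ) : ℝ := ∫ x in MM, (pd 1 (pd 1 F) x * Q1 x + pd 0 (pd 0 F) x * Q0 x)

/-- the deformations -/
def Def (F : E → ℝ) : Prop := ContDiff ℝ ∞ F ∧ HasCompactSupport F ∧ tsupport F ⊆ {x | 4 < s x}

end

end Pool.Agent.K1H62.MC
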