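import Pool.Agent.K1H62.MC.Asm

set_option autoImplicit false

/-! The lower bound for the Dirichlet integrals. -/

namespace Pool.Agent.K1H62.MC

open MeasureTheory Filter Topology
open scoped ENNReal ContDiff

noncomputable section

lemma pd_meas (i : Fin 3) (f : E → ℝ) : Measurable (pd i f) := by
  unfold pd
  exact measurable_fderiv_apply_const ℝ f _

lemma MM_meas : MeasurableSet MM := (isClosed_le continuous_const s_cont).measurableSet

lemma u_meas : Measurable u := by
  unfold u
  have hs : Measurable s := s_cont.measurable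
  exact measurable_const.sub ((((hs.add_const 2).div (hs.sub_const 2)).log).div_const _)

lemma ph_meas (K t : ℝ) : Measurable (ph K t) := by
  unfold ph
  exact measurable_const.sub ((u_meas.pow_const 2).const_mul _)

lemma aa_meas (F : E → ℝ) (i : Fin 3) : Measurable (aa F i) := by
  have h0 := pd_meas 0 (pd 0 F)
  have h1 := pd_meas 1 (pd 1 F)
  unfold aa
  fin_cases i
  · exact ((h0.add h1).neg).div_const 2
  · exact (h0.add h1).div_const 2
  · exact (h1.sub h0).div_const 2

lemma al_meas (F : E → ℝ) (K t : ℝ) (i : Fin 3) : Measurable (al F K t i) := by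
  unfold al
  exact ((aa_meas F i).const_mul t).add (((ph_meas K t).log).const_mul 2)

/-- the coefficients of the Dirichlet integral -/
def kp (F : E → ℝ) (K t : ℝ) (i : Fin 3) (x : E) : ℝ := Real.exp (-2 * al F K t i x) * vol (gm F K t) x

lemma vol_gm (F : E → ℝ) (K t : ℝ) (x : E) : vol (gm F K t) x =
    Real.exp (al F K t 0 x + al F K t 1 x + al F K t 2 x) := vol_diag (al F K t) x

lemma kp_meas (F : E → ℝ) (K t : ℝ) (i : Fin 3) : Measurable (kp F K t i) := by
  unfold kp
  have h : Measurable fun x => vol (gm F K t) x := by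
    simp only [vol_gm]
    exact (((al_meas F K t 0).add (al_meas F K t 1)).add (al_meas F K t 2)).exp
  exact (((al_meas F K t i).const_mul (-2)).exp).mul h

lemma kp_pos (F : E → ℝ) (K t : ℝ) (i : Fin 3) (x : E) : 0 < kp F K t i x := by
  unfold kp
  rw [vol_gm]
  positivity

lemma nsq_gm (F : E → ℝ) (K t : ℝ) (ψ : E → ℝ) (x : E) :
    nsq (gm F K t) ψ x * vol (gm F K t) x = ∑ i, kp F K t i x * pd i ψ x ^ 2 := by
  have h := nsq_diag (al F K t) ψ x
  have e : nsq (gm F K t) ψ x = ∑ i, Real.exp (-2 * al F K t i x) * pd i ψ x ^ 2 := h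
  rw [e, Finset.sum_mul]
  refine Finset.sum_congr rfl fun i _ => ?_
  unfold kp; ring

/-- the first order coefficients -/
def bb (F : E → ℝ) (i : Fin 3) (x : E) : ℝ := aa F 0 x + aa F 1 x + aa F 2 x - 2 * aa F i x

lemma bb_sum (F : E → ℝ) (x : E) : ∑ i, bb F i x * pd i u x ^ 2 =
    1 / 2 * (pd 1 (pd 1 F) x * Q1 x + pd 0 (pd 0 F) x * Q0 x) := by
  rw [Fin.sum_univ_three]
  unfold bb aa Q1 Q0
  simp only [Matrix.cons_val_zero, Matrix.cons_val_one, Matrix.cons_val]
  ring

lemma quad {κ a w : ℝ} (hκ : 1 / 2 ≤ κ) : κ * a ^ 2 + 2 * (a * w) - 2 * (κ - 1) ^ 2 * a ^ 2 ≤ κ * (a + w) ^ 2 := by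
  nlinarith [sq_nonneg (w + 2 * (κ - 1) * a), sq_nonneg w]

lemma diff_ae (hG : S_GEO) {ψ : E → ℝ} {C : NNReal} (h : LipschitzOnWith C ψ MM) :
    ∀ᵐ x ∂(volume.restrict MM), 4 < s x ∧ DifferentiableAt ℝ ψ x := by
  have h1 := h.ae_differentiableWithinAt_of_mem (μ := volume)
  have h2 : ∀ᵐ x ∂(volume : Measure E), s x ≠ 4 := by
    have h3 := hG.2.2.2.2.2.2.2.2.2
    rw [ae_iff]
    simpa using h3
  rw [ae_restrict_iff' MM_meas]
  filter_upwards [h1, h2] with x hx1 hx2 hx
  have hx' : 4 ≤ s x := hx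
  have h4 : 4 < s x := lt_of_le_of_ne hx' (Ne.symm hx2)
  refine ⟨h4, (hx1 hx).differentiableAt ?_⟩
  have h5 : interior MM = {x | 4 < s x} := hG.2.2.2.2.2.2.1
  rw [← mem_interior_iff_mem_nhds, h5]
  exact h4

lemma coco (hG : S_GEO) : cocompact E ≤ 𝓟 MM := by
  rw [le_principal_iff, mem_cocompact]
  refine ⟨Metric.closedBall 0 2, isCompact_closedBall 0 2, fun x hx => ?_⟩
  have h1 : 2 < ‖x‖ := by
    simpa using hx
  have := hG.2.1 x
  show 4 ≤ s x
  linarith

lemma u_lim (hG : S_GEO) (hD : S_DEC) : Tendsto u (cocompact E) (𝓝 1) := by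
  obtain ⟨⟨C, hC, h, -⟩, -⟩ := hD
  have h1 : Tendsto (fun x : E => C / (1 + ‖x‖)) (cocompact E) (𝓝 0) := by
    have h2 : Tendsto (fun x : E => 1 + ‖x‖) (cocompact E) atTop :=
      tendsto_atTop_add_const_left _ _ (tendsto_norm_cocompact_atTop)
    exact h2.const_div_atTop C
  rw [tendsto_iff_norm_sub_tendsto_zero]
  refine squeeze_zero' (Eventually.of_forall fun x => norm_nonneg _) ?_ h1
  have h3 : ∀ᶠ x in cocompact E, x ∈ MM := coco hG (mem_principal_self MM)
  filter_upwards [h3] with x hx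
  rw [Real.norm_eq_abs, abs_sub_comm]
  exact h x hx

theorem low : S_LOW := by
  intro hG hP hD hOC hOr hU hCo hE F hF K hK
  obtain ⟨C, t₁, hC, ht₁, h1⟩ := hCo hP F hF K hK
  have hUint := (hU hG hP hD).1
  have hE0 := E₀_nonneg
  refine ⟨C * E₀ + 72 * C ^ 2 * E₀, min t₁ (min 1 (1 / (12 * C))), by positivity, ?_⟩
  intro t ht htt ψ hψ
  have htt1 : t < t₁ := htt.trans_le (min_le_left _ _)
  have ht1 : t < 1 := htt.trans_le ((min_le_right _ _).trans (min_le_left _ _))
  have htC : t < 1 / (12 * C) := htt.trans_le ((min_le_right _ _).trans (min_le_right _ _))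
  have htC' : 12 * C * t < 1 := by
    rw [lt_div_iff₀ (by positivity)] at htC
    linarith
  obtain ⟨hKt, h2⟩ := h1 t ht htt1
  -- the coefficients
  have hb : ∀ x ∈ MM, ∀ i, |bb F i x| ≤ 5 * C := by
    intro x hx i
    have a0 := abs_le.mp (h2 x hx 0).2
    have a1 := abs_le.mp (h2 x hx 1).2
    have a2 := abs_le.mp (h2 x hx 2).2
    have ai := abs_le.mp (h2 x hx i).2
    unfold bb
    rw [abs_le]
    constructor <;> linarith
  have hk : ∀ x ∈ MM, ∀ i, |kp F K t i x - 1 - t * bb F i x| ≤ C * t ^ 2 := fun x hx i => (h2 x hx i).1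
  have hk1 : ∀ x ∈ MM, ∀ i, |kp F K t i x - 1| ≤ 6 * C * t := by
    intro x hx i
    have a1 := abs_le.mp (hk x hx i)
    have a2 := abs_le.mp (hb x hx i)
    have a3 : C * t ^ 2 ≤ C * t := by nlinarith
    have a4 : t * bb F i x ≤ t * (5 * C) := mul_le_mul_of_nonneg_left a2.2 ht.le
    have a5 : t * (-(5 * C)) ≤ t * bb F i x := mul_le_mul_of_nonneg_left a2.1 ht.le
    rw [abs_le]
    constructor <;> nlinarith
  have hk2 : ∀ x ∈ MM, ∀ i, 1 / 2 ≤ kp F K t i x := by
    intro x hx i
    have a1 := abs_le.mp (hk1 x hx i)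
    linarith
  have hk3 : ∀ x ∈ MM, ∀ i, kp F K t i x ≤ 3 / 2 := by
    intro x hx i
    have a1 := abs_le.mp (hk1 x hx i)
    linarith
  -- the Dirichlet integral
  unfold Dir
  simp only [nsq_gm]
  set G : E → ℝ := fun x => ∑ i, kp F K t i x * pd i ψ x ^ 2 with hGd
  have hG0 : ∀ x, 0 ≤ G x := fun x => Finset.sum_nonneg fun i _ => mul_nonneg (kp_pos F K t i x).le (sq_nonneg _)
  have hGm : Measurable G := Finset.measurable_sum _ fun i _ => (kp_meas F K t i).mul ((pd_meas i ψ).pow_const 2)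
  by_cases htop : ∫⁻ x in MM, ENNReal.ofReal (G x) = ⊤
  · rw [htop]; exact le_top
  have hGint : IntegrableOn G MM :=
    (lintegral_ofReal_ne_top_iff_integrable hGm.aestronglyMeasurable (Eventually.of_forall hG0)).mp htop
  rw [← ofReal_integral_eq_lintegral_ofReal hGint (Eventually.of_forall hG0)]
  apply ENNReal.ofReal_le_ofReal
  -- the difference
  obtain ⟨⟨C₁, hC₁⟩, hψ0, hψ1⟩ := hψ
  obtain ⟨C₂, hC₂⟩ := hD.2
  have hfrM : frontier MM = {x | s x = 4} := hG.2.2.2.2.2.1
  obtain ⟨C₃, hC₃⟩ := hE hG (fun x => ψ x - u x) ⟨C₁ + C₂, hC₁.sub hC₂⟩ (by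
    intro x hx
    have h3 := hψ0 x (by rw [hfrM]; exact hx)
    have h4 := hP.2.2.2.1 x hx
    simp [h3, h4])
  set w : E → ℝ := fun x => if 4 ≤ s x then ψ x - u x else 0 with hw
  have hwM : ∀ x ∈ MM, w x = ψ x - u x := fun x hx => if_pos hx
  have hpw : ∀ᵐ x ∂(volume.restrict MM), ∀ i, pd i ψ x = pd i u x + pd i w x := by
    filter_upwards [diff_ae hG hC₁] with x hx i
    have hu : DifferentiableAt ℝ u x := diff_of (open_s 2) hP.1 (show 2 < s x by linarith [hx.1])
    have h3 : pd i w x = pd i (fun y => ψ y - u y) x := by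
      apply pd_congr_set (open_s 4) (fun y hy => ?_) hx.1
      exact if_pos (le_of_lt hy)
    rw [h3, pd_sub i hx.2 hu]
    ring
  have hψsq : ∀ i, IntegrableOn (fun x => pd i ψ x ^ 2) MM := by
    intro i
    refine (hGint.const_mul 2).mono' ((pd_meas i ψ).pow_const 2).aestronglyMeasurable ?_
    rw [ae_restrict_iff' MM_meas]
    refine Eventually.of_forall fun x hx => ?_
    rw [Real.norm_of_nonneg (sq_nonneg _)]
    have h3 : kp F K t i x * pd i ψ x ^ 2 ≤ G x := Finset.single_le_sum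
      (f := fun i => kp F K t i x * pd i ψ x ^ 2)
      (fun j _ => mul_nonneg (kp_pos F K t j x).le (sq_nonneg _)) (Finset.mem_univ i)
    have h4 := hk2 x hx i
    have h5 := sq_nonneg (pd i ψ x)
    nlinarith
  have husq : ∀ i, IntegrableOn (fun x => pd i u x ^ 2) MM := by
    intro i
    refine hUint.mono' ((pd_meas i u).pow_const 2).aestronglyMeasurable ?_
    refine Eventually.of_forall fun x => ?_
    rw [Real.norm_of_nonneg (sq_nonneg _)]
    exact Finset.single_le_sum (f := fun i => pd i u x ^ 2) (fun j _ => sq_nonneg _) (Finset.mem_univ i)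
  have hwsq : ∀ i, IntegrableOn (fun x => pd i w x ^ 2) MM := by
    intro i
    refine (((hψsq i).const_mul 2).add ((husq i).const_mul 2)).mono'
      ((pd_meas i w).pow_const 2).aestronglyMeasurable ?_
    filter_upwards [hpw] with x hx
    have h3 := hx i
    have h4 : pd i w x = pd i ψ x - pd i u x := by rw [h3]; ring
    rw [Real.norm_of_nonneg (sq_nonneg _), h4]
    simp only [Pi.add_apply]
    nlinarith [sq_nonneg (pd i ψ x + pd i u x)]
  have hwlim : Tendsto w (cocompact E) (𝓝 0) := by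
    have h3 : Tendsto ψ (cocompact E) (𝓝 1) := by
      have : cocompact E ⊓ 𝓟 MM = cocompact E := inf_eq_left.mpr (coco hG)
      rwa [this] at hψ1
    have h4 := h3.sub (u_lim hG hD)
    rw [sub_self] at h4
    refine h4.congr' ?_
    have h5 : ∀ᶠ x in cocompact E, x ∈ MM := coco hG (mem_principal_self MM)
    filter_upwards [h5] with x hx
    exact (hwM x hx).symm
  have horth := hOr hG hP hD hOC w ⟨C₃, hC₃⟩ (by
    intro x hx
    by_cases h4 : 4 ≤ s x
    · have h5 : s x = 4 := le_antisymm hx h4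
      have h6 : x ∈ MM := h4
      rw [hwM x h6, hψ0 x (by rw [hfrM]; exact h5), hP.2.2.2.1 x h5, sub_zero]
    · exact if_neg h4) hwlim hwsq
  -- integrability of the products
  have hprod : IntegrableOn (fun x => ∑ i, pd i u x * pd i w x) MM := by
    refine integrable_finsetSum _ fun i _ => ?_
    refine ((husq i).add (hwsq i)).mono' ((pd_meas i u).mul (pd_meas i w)).aestronglyMeasurable ?_
    refine Eventually.of_forall fun x => ?_
    rw [Real.norm_eq_abs, abs_le]
    simp only [Pi.add_apply]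
    constructor <;> nlinarith [sq_nonneg (pd i u x + pd i w x), sq_nonneg (pd i u x - pd i w x)]
  have hbint : IntegrableOn (fun x => ∑ i, bb F i x * pd i u x ^ 2) MM := by
    refine integrable_finsetSum _ fun i _ => ?_
    refine ((husq i).const_mul (5 * C)).mono' ?_ ?_
    · have : Measurable (bb F i) := by
        unfold bb
        exact (((aa_meas F 0).add (aa_meas F 1)).add (aa_meas F 2)).sub ((aa_meas F i).const_mul 2)
      exact (this.mul ((pd_meas i u).pow_const 2)).aestronglyMeasurable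
    · rw [ae_restrict_iff' MM_meas]
      refine Eventually.of_forall fun x hx => ?_
      rw [norm_mul, Real.norm_of_nonneg (sq_nonneg _), Real.norm_eq_abs]
      have := hb x hx i
      have h5 := sq_nonneg (pd i u x)
      gcongr
  have hLf : ∫ x in MM, ∑ i, bb F i x * pd i u x ^ 2 = Lf F / 2 := by
    simp only [bb_sum]
    rw [integral_const_mul]
    unfold Lf
    ring
  -- comparison
  set c₂ : ℝ := C * t ^ 2 + 2 * (6 * C * t) ^ 2 with hc₂
  set L : E → ℝ := fun x => (∑ i, pd i u x ^ 2) + t * (∑ i, bb F i x * pd i u x ^ 2) +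
    2 * (∑ i, pd i u x * pd i w x) - c₂ * (∑ i, pd i u x ^ 2) with hL
  have hLint : IntegrableOn L MM :=
    ((hUint.add (hbint.const_mul t)).add (hprod.const_mul 2)).sub (hUint.const_mul c₂)
  have hLG : ∫ x in MM, L x ≤ ∫ x in MM, G x := by
    refine integral_mono_ae hLint hGint ?_
    have hM : ∀ᵐ x ∂(volume.restrict MM), x ∈ MM := ae_restrict_mem MM_meas
    filter_upwards [hpw, hM] with x hx hxM
    rw [hL, hGd]
    simp only [Finset.mul_sum]
    rw [← Finset.sum_add_distrib, ← Finset.sum_add_distrib, ← Finset.sum_sub_distrib]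
    refine Finset.sum_le_sum fun i _ => ?_
    rw [hx i]
    have q := quad (κ := kp F K t i x) (a := pd i u x) (w := pd i w x) (hk2 x hxM i)
    refine le_trans ?_ q
    have h5 := sq_nonneg (pd i u x)
    have h6 := (abs_le.mp (hk x hxM i)).1
    have h7 : (kp F K t i x - 1) ^ 2 ≤ (6 * C * t) ^ 2 := by
      rw [← sq_abs]
      exact pow_le_pow_left₀ (abs_nonneg _) (hk1 x hxM i) 2
    have h8 : (1 + t * bb F i x - C * t ^ 2) * pd i u x ^ 2 ≤ kp F K t i x * pd i u x ^ 2 := by
      apply mul_le_mul_of_nonneg_right _ h5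
      linarith
    have h9 : 2 * (kp F K t i x - 1) ^ 2 * pd i u x ^ 2 ≤ 2 * (6 * C * t) ^ 2 * pd i u x ^ 2 := by
      apply mul_le_mul_of_nonneg_right _ h5
      linarith
    rw [hc₂]
    nlinarith
  refine le_trans (le_of_eq ?_) hLG
  have e1 : ∫ x in MM, L x = E₀ + t * (Lf F / 2) + 2 * 0 - c₂ * E₀ := by
    rw [hL]
    have i1 : IntegrableOn (fun x => (∑ i, pd i u x ^ 2) + t * (∑ i, bb F i x * pd i u x ^ 2)) MM :=
      hUint.add (hbint.const_mul t)
    have i2 : IntegrableOn (fun x => (∑ i, pd i u x ^ 2) + t * (∑ i, bb F i x * pd i u x ^ 2) +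
      2 * (∑ i, pd i u x * pd i w x)) MM := i1.add (hprod.const_mul 2)
    rw [integral_sub i2 (hUint.const_mul c₂), integral_add i1 (hprod.const_mul 2),
      integral_add hUint (hbint.const_mul t), integral_const_mul, integral_const_mul, integral_const_mul,
      hLf, horth]
    rfl
  rw [e1, hc₂]
  ring

end

end Pool.Agent.K1H62.MC
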